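import Mathlib

set_option autoImplicit false

namespace Pool.Agent.Results.MP_1ea763_an.No

open Set Filter Topology MeasureTheory
open scoped ENNReal

/-- the space `{2,3,4,…}^ℕ` with the product of the discrete topologies -/
abbrev X : Type := ℕ → {n : ℕ // 2 ≤ n}

/-- the product of the first `n` entries -/
def lam (ω : X) (n : ℕ) : ℕ := ∏ i ∈ Finset.range n, (ω i : ℕ)

/-- the products `lam ω 1, lam ω 2, …` form an `L^p`-Khintchin sequence -/
def Khintchin (p : ℝ≥0∞) (ω : X) : Prop :=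
  ∀ f : UnitAddCircle → ℝ, MemLp f p volume → ∀ᵐ x : UnitAddCircle,
    Tendsto (fun N : ℕ => (∑ n ∈ Finset.range N, f (lam ω (n + 1) • x)) / N) atTop
      (𝓝 (∫ y, f y))

instance : IsProbabilityMeasure (volume : Measure UnitAddCircle) := ⟨by simp⟩

theorem mp {n : ℕ} (hn : n ≠ 0) : MeasurePreserving (fun y : UnitAddCircle => n • y) := by
  simpa using Measure.measurePreserving_zsmul (volume : Measure UnitAddCircle)
    (n := (n : ℤ)) (by exact_mod_cast hn)

/-- first visit to `U` at time `t` under doubling -/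
def F (U : Set UnitAddCircle) (t : ℕ) : Set UnitAddCircle :=
  {y | 2 ^ t • y ∈ U ∧ ∀ i < t, 2 ^ i • y ∉ U}

theorem F_meas {U : Set UnitAddCircle} (hU : MeasurableSet U) (t : ℕ) : MeasurableSet (F U t) := by
  have : F U t = (fun y => 2 ^ t • y) ⁻¹' U ∩ ⋂ i ∈ Iio t, (fun y => 2 ^ i • y) ⁻¹' Uᶜ := by
    ext; simp [F]
  rw [this]
  exact ((mp (by positivity)).measurable hU).inter (MeasurableSet.biInter (to_countable _)
    fun i _ => (mp (by positivity)).measurable hU.compl)

theorem F_shift {U : Set UnitAddCircle} {t c : ℕ} {y : UnitAddCircle} (h : y ∈ F U (t + c)) :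
    2 ^ c • y ∈ F U t :=
  ⟨by rw [smul_smul, ← pow_add]; exact h.1,
    fun i hi => by rw [smul_smul, ← pow_add]; exact h.2 _ (by omega)⟩

theorem F_uniq {U : Set UnitAddCircle} {s t : ℕ} {y : UnitAddCircle} (h1 : y ∈ F U s)
    (h2 : y ∈ F U t) : s = t := by
  rcases lt_trichotomy s t with h | h | h
  exacts [absurd h1.1 (h2.2 s h), h, absurd h2.1 (h1.2 t h)]

/-- a Rokhlin-type tower: a set `E` of measure `≤ 1/S` -/
theorem tower (S H : ℕ) (hS : 0 < S) {δ : ℝ≥0∞} (hδ : 0 < δ) :
    ∃ E B : Set UnitAddCircle, MeasurableSet E ∧ MeasurableSet B ∧ S * volume E ≤ 1 ∧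
      volume B ≤ δ ∧ ∀ y ∉ B, ∃ s < S, ∀ q, S * q + s ≤ H → 2 ^ (S * q + s) • y ∈ E := by
  obtain ⟨r, hr, hr2⟩ : ∃ r : ℝ, 0 < r ∧ (H + 1) * ENNReal.ofReal (min 1 (2 * r)) ≤ δ := by
    have h : Tendsto (fun r : ℝ => ((H : ℝ≥0∞) + 1) * ENNReal.ofReal (min 1 (2 * r))) (𝓝[>] 0)
        (𝓝 ((H + 1) * ENNReal.ofReal (min 1 (2 * 0)))) :=
      ENNReal.Tendsto.const_mul (ENNReal.tendsto_ofReal (tendsto_nhdsWithin_of_tendsto_nhds
        (Continuous.tendsto (by fun_prop) _))) (Or.inr (by simp))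
    simp only [mul_zero, zero_le_one, min_eq_right, ENNReal.ofReal_zero] at h
    exact (eventually_mem_nhdsWithin.and (h.eventually (ge_mem_nhds hδ))).exists
  set U := Metric.closedBall (0 : UnitAddCircle) r
  have hU : MeasurableSet U := measurableSet_closedBall
  have hv : volume U = ENNReal.ofReal (min 1 (2 * r)) := AddCircle.volume_closedBall 1 r
  let E : ℕ → Set UnitAddCircle := fun k => ⋃ q, F U (S * q + k)
  have hE (k : ℕ) : MeasurableSet (E k) := MeasurableSet.iUnion fun q => F_meas hU _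
  have hanti : Antitone fun k => volume (E k) := antitone_nat_of_succ_le fun k => by
    rw [← (mp (n := 2 ^ 1) (by positivity)).measure_preimage (hE k).nullMeasurableSet]
    refine measure_mono fun y hy => ?_
    obtain ⟨q, hq⟩ := mem_iUnion.1 hy
    exact mem_iUnion.2 ⟨q, F_shift hq⟩
  let Z : Set UnitAddCircle := ⋂ i : ℕ, (fun y => 2 ^ i • y) ⁻¹' Uᶜ
  have hZ : MeasurableSet Z := MeasurableSet.iInter fun i => (mp (by positivity)).measurable hU.compl
  have hZ0 : volume Z = 0 := by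
    rcases (AddCircle.ergodic_nsmul (T := 1) one_lt_two).ae_empty_or_univ_of_ae_le_preimage
      hZ.nullMeasurableSet (LE.le.eventuallyLE fun y hy => mem_iInter.2 fun i => by
        have := mem_iInter.1 hy (i + 1)
        rwa [mem_preimage, pow_succ, ← smul_smul] at this) with h | h
    · exact ae_eq_empty.1 h
    · have h1 : volume Zᶜ = 0 := ae_eq_univ.1 h
      have h2 : volume U ≤ volume Zᶜ := measure_mono fun y hy hz => by
        have := mem_iInter.1 hz 0
        simp only [pow_zero, one_smul, mem_preimage] at this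
        exact this hy
      rw [h1, hv] at h2
      exact absurd h2 (not_le.2 (ENNReal.ofReal_pos.2 (lt_min one_pos (by positivity))))
  refine ⟨E S, Z ∪ ⋃ i ∈ Finset.range (H + 1), (fun y => 2 ^ i • y) ⁻¹' U, hE S,
    hZ.union (Finset.measurableSet_biUnion _ fun i _ => (mp (by positivity)).measurable hU),
    ?_, ?_, fun y hy => ?_⟩
  · calc S * volume (E S) = ∑ _k ∈ Finset.range S, volume (E S) := by simp
      _ ≤ ∑ k ∈ Finset.range S, volume (E k) :=
          Finset.sum_le_sum fun k hk => hanti (Finset.mem_range.1 hk).le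
      _ = volume (⋃ k ∈ Finset.range S, E k) := by
          refine (measure_biUnion_finset (fun a ha b hb hab => disjoint_left.2 fun y h1 h2 => ?_)
            fun k _ => hE k).symm
          obtain ⟨q, hq⟩ := mem_iUnion.1 h1
          obtain ⟨q', hq'⟩ := mem_iUnion.1 h2
          have := congrArg (· % S) (F_uniq hq hq')
          simp only [Nat.mul_add_mod, Nat.mod_eq_of_lt (Finset.mem_range.1 ha),
            Nat.mod_eq_of_lt (Finset.mem_range.1 hb)] at this
          exact hab this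
      _ ≤ 1 := prob_le_one
  · refine (measure_union_le _ _).trans ?_
    rw [hZ0, zero_add]
    refine (measure_biUnion_finset_le _ _).trans (le_trans (le_of_eq ?_) hr2)
    rw [Finset.sum_congr rfl fun i _ =>
      (mp (n := 2 ^ i) (by positivity)).measure_preimage hU.nullMeasurableSet, hv]
    simp
  · simp only [mem_union, not_or, mem_iUnion, not_exists, Z, mem_iInter, not_forall,
      mem_preimage, mem_compl_iff, not_not, Finset.mem_range] at hy
    classical
    have h1 : y ∈ F U (Nat.find hy.1) := ⟨Nat.find_spec hy.1, fun i hi => Nat.find_min hy.1 hi⟩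
    have h2 : H < Nat.find hy.1 := not_le.1 fun h => hy.2 _ (by omega) h1.1
    generalize Nat.find hy.1 = t at h1 h2
    refine ⟨t % S, Nat.mod_lt _ hS, fun q hq => ?_⟩
    have h3 := Nat.div_add_mod t S
    have h4 : q < t / S := Nat.lt_of_mul_lt_mul_left (a := S) (by omega)
    obtain ⟨k, hk⟩ := Nat.exists_eq_add_of_lt h4
    refine mem_iUnion.2 ⟨k, F_shift ?_⟩
    have h5 : S * k + S + (S * q + t % S) = t := by
      rw [hk, mul_add, mul_add, mul_one] at h3
      omega
    rw [h5]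
    exact h1

open Classical in
def Good (j : ℕ) : Set X := {ω | ∃ (n : ℕ) (E B : Set UnitAddCircle), MeasurableSet E ∧
  volume E ≤ 2⁻¹ ^ (j + 3) ∧ volume B ≤ 2⁻¹ ^ (j + 3) ∧ ∀ x ∉ B, ∃ N, j < N ∧ N ≤ n ∧
    N ≤ 2 * ((Finset.range N).filter fun i => lam ω (i + 1) • x ∈ E).card}

theorem good_open (j : ℕ) : IsOpen (Good j) := by
  classical
  refine isOpen_iff_mem_nhds.2 fun ω ⟨n, E, B, h1, h2, h3, h4⟩ => ?_
  have : ∀ᶠ ω' in 𝓝 ω, ∀ i ∈ Finset.range n, ω' i = ω i :=
    (Finset.eventually_all _).2 fun i _ =>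
      ((continuous_apply i).tendsto ω).eventually (p := fun a => a = ω i)
        (by rw [nhds_discrete]; rfl)
  filter_upwards [this] with ω' h
  refine ⟨n, E, B, h1, h2, h3, fun x hx => ?_⟩
  obtain ⟨N, a, b, c⟩ := h4 x hx
  refine ⟨N, a, b, ?_⟩
  rw [Finset.filter_congr (q := fun i => lam ω (i + 1) • x ∈ E) fun i hi => by
    rw [show lam ω' (i + 1) = lam ω (i + 1) from Finset.prod_congr rfl fun k hk => by
      rw [h k (by simp at hi hk ⊢; omega)]]]
  exact c

theorem good_near (j : ℕ) (ω : X) (n : ℕ) (hn : j < n) : ∃ ω' ∈ Good j, ∀ i < n, ω' i = ω i := by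
  classical
  have hn0 : 0 < n := by omega
  set S := 2 ^ (j + 3) with hS
  have hS0 : 0 < S := by positivity
  let c : ℕ → ℕ := fun m => S * (m - n) + Nat.log 2 ((m - 1) / n)
  have hc (m : ℕ) (hm : n ≤ m) : c m + 1 ≤ c (m + 1) := by
    have h1 : Nat.log 2 ((m - 1) / n) ≤ Nat.log 2 ((m + 1 - 1) / n) :=
      Nat.log_mono_right (Nat.div_le_div_right (by omega))
    have h2 : S * (m + 1 - n) = S * (m - n) + S := by rw [Nat.sub_add_comm hm]; ring
    simp only [c]; omega
  let ω' : X := fun i => if h : i < n then ω i else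
    ⟨2 ^ (c (i + 1) - c i), Nat.le_self_pow (by have := hc i (by omega); omega) 2⟩
  have h0 (i : ℕ) (hi : i < n) : ω' i = ω i := dif_pos hi
  have hl (m : ℕ) (hm : n ≤ m) : lam ω' m = 2 ^ c m * lam ω n := by
    induction m, hm using Nat.le_induction with
    | base =>
      have : c n = 0 := by simp [c, Nat.div_eq_of_lt (show n - 1 < n by omega)]
      rw [this, pow_zero, one_mul]
      exact Finset.prod_congr rfl fun i hi => by rw [h0 i (Finset.mem_range.1 hi)]
    | succ m hm ih =>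
      have e : (ω' m : ℕ) = 2 ^ (c (m + 1) - c m) := by simp only [ω', dif_neg (not_lt.2 hm)]
      have := hc m hm
      rw [lam, Finset.prod_range_succ, ← lam, ih, e, mul_right_comm, ← pow_add,
        Nat.add_sub_cancel' (by omega)]
  obtain ⟨E, B, hE, hB, h1, h2, h3⟩ := tower S (S * (n * 2 ^ S) + S) hS0
    (δ := 2⁻¹ ^ (j + 3)) (ENNReal.pow_pos (by simp) _)
  have hΛ : lam ω n ≠ 0 := Finset.prod_ne_zero_iff.2 fun i _ => by have := (ω i).2; omega
  refine ⟨ω', ⟨n * 2 ^ S, E, (fun x => lam ω n • x) ⁻¹' B, hE, ?_, ?_, fun x hx => ?_⟩, h0⟩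
  · rw [← ENNReal.inv_pow, ENNReal.le_inv_iff_mul_le, mul_comm]
    simpa [hS] using h1
  · rwa [(mp hΛ).measure_preimage hB.nullMeasurableSet]
  · obtain ⟨s, hs, h⟩ := h3 _ hx
    have hle : n * 2 ^ (s + 1) ≤ n * 2 ^ S :=
      Nat.mul_le_mul_left _ (Nat.pow_le_pow_right two_pos hs)
    have hp : n ≤ n * 2 ^ s := Nat.le_mul_of_pos_right _ (by positivity)
    have hp2 : n * 2 ^ (s + 1) = 2 * (n * 2 ^ s) := by ring
    refine ⟨n * 2 ^ (s + 1), by omega, hle, ?_⟩
    refine le_trans (le_of_eq ?_) (Nat.mul_le_mul_left 2 (Finset.card_le_card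
      (s := Finset.Ico (n * 2 ^ s) (n * 2 ^ (s + 1))) fun i hi => ?_))
    · rw [Nat.card_Ico]; omega
    · obtain ⟨a, b⟩ := Finset.mem_Ico.1 hi
      refine Finset.mem_filter.2 ⟨Finset.mem_range.2 b, ?_⟩
      have e : c (i + 1) = S * (i + 1 - n) + s := by
        simp only [c, Nat.add_sub_cancel]
        rw [Nat.log_eq_of_pow_le_of_lt_pow ((Nat.le_div_iff_mul_le hn0).2 (by rwa [mul_comm]))
          ((Nat.div_lt_iff_lt_mul hn0).2 (by rwa [mul_comm]))]
      rw [hl _ (by omega), ← smul_smul, e]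
      exact h _ (add_le_add (Nat.mul_le_mul_left _ (by omega)) hs.le)

theorem good_dense (j : ℕ) : Dense (Good j) := fun ω => by
  choose g hg using fun n => good_near j ω (n + j + 1) (by omega)
  refine mem_closure_of_tendsto (f := g) (b := atTop) (tendsto_pi_nhds.2 fun i => ?_)
    (Eventually.of_forall fun n => (hg n).1)
  refine tendsto_const_nhds.congr' ?_
  filter_upwards [eventually_ge_atTop i] with n hn
  exact ((hg n).2 i (by omega)).symm

theorem sum_geo : ∑' j : ℕ, (2⁻¹ : ℝ≥0∞) ^ (j + 3) = 2⁻¹ * 2⁻¹ := by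
  simp only [pow_succ _ (_ + 1), ENNReal.tsum_mul_right]
  rw [ENNReal.tsum_geometric_add_one, ENNReal.one_sub_inv_two, inv_inv,
    ENNReal.inv_mul_cancel (by simp) (by simp), one_mul]

theorem result (p : ℝ≥0∞) : IsMeagre {ω : X | Khintchin p ω} := by
  classical
  have hr : (⋂ j, Good j) ∈ residual X :=
    countable_iInter_mem.2 fun j => residual_of_dense_open (good_open j) (good_dense j)
  refine mem_of_superset hr fun ω hω hK => ?_
  choose n E B h1 h2 h3 h4 using mem_iInter.1 hω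
  have hE : MeasurableSet (⋃ j, E j) := MeasurableSet.iUnion h1
  have hq : (2⁻¹ * 2⁻¹ : ℝ≥0∞) = ENNReal.ofReal (1 / 4) := by
    rw [ENNReal.ofReal_div_of_pos (by norm_num), ← ENNReal.mul_inv (by simp) (by simp)]
    norm_num
  have hE2 : volume.real (⋃ j, E j) ≤ 1 / 4 := ENNReal.toReal_le_of_le_ofReal (by norm_num)
    ((measure_iUnion_le _).trans ((ENNReal.tsum_le_tsum h2).trans (sum_geo.trans hq).le))
  have hB : volume (⋃ j, B j) < 1 :=
    ((measure_iUnion_le _).trans ((ENNReal.tsum_le_tsum h3).trans (sum_geo.trans hq).le)).trans_lt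
      (ENNReal.ofReal_lt_one.2 (by norm_num))
  have ha := hK ((⋃ j, E j).indicator 1) ((memLp_const 1).indicator hE)
  rw [integral_indicator_one hE] at ha
  obtain ⟨x, hx, hx2⟩ : ∃ x, x ∉ (⋃ j, B j) ∧ _ := by
    refine (Frequently.and_eventually ?_ ha).exists
    intro h
    have : (⋃ j, B j) =ᵐ[volume] univ := eventuallyEq_univ.2 (h.mono fun x hx => not_not.1 hx)
    rw [measure_congr this, measure_univ] at hB
    exact lt_irrefl _ hB
  obtain ⟨j, hj⟩ := eventually_atTop.1 (hx2.eventually (gt_mem_nhds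
    (hE2.trans_lt (show (1 / 4 : ℝ) < 1 / 2 by norm_num))))
  obtain ⟨N, a, -, c⟩ := h4 j x fun h => hx (mem_iUnion.2 ⟨j, h⟩)
  have hN : (0 : ℝ) < N := Nat.cast_pos.2 (by omega)
  have h5 := hj N a.le
  rw [div_lt_iff₀ hN] at h5
  have h6 : (((Finset.range N).filter fun i => lam ω (i + 1) • x ∈ E j).card : ℝ) ≤
      ∑ i ∈ Finset.range N, (⋃ j, E j).indicator (1 : UnitAddCircle → ℝ) (lam ω (i + 1) • x) := by
    rw [Finset.card_filter]
    push_cast
    refine Finset.sum_le_sum fun i _ => ?_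
    split_ifs with h
    · rw [indicator_of_mem (mem_iUnion.2 ⟨j, h⟩)]; rfl
    · exact indicator_nonneg (fun _ _ => zero_le_one) _
  have h7 : (N : ℝ) ≤ 2 * ((Finset.range N).filter fun i => lam ω (i + 1) • x ∈ E j).card := by
    exact_mod_cast c
  linarith

end Pool.Agent.Results.MP_1ea763_an.No
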